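import Pool.Agent.H786Z.TH.Main

/-!
Every 5-arc-connected digraph splits into a strongly connected and a weakly connected
spanning sub-digraph.
-/

namespace Pool.Agent.Results.MP_ce98c0_co.FiveArcSplit

open Pool.Agent.H786Z.TH

/-- The digraph with vertex type `V`, arc set `S` (arc `a` goes from `tl a` to `hd a`) is
strongly connected: a directed walk along arcs of `S` joins any ordered pair of vertices. -/
def StronglyConnected {V A : Type} (tl hd : A → V) (S : Set A) : Prop :=
  ∀ u v : V, Relation.ReflTransGen (fun x y => ∃ a ∈ S, tl a = x ∧ hd a = y) u v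

/-- The underlying undirected graph of `(V, S)` is connected. -/
def WeaklyConnected {V A : Type} (tl hd : A → V) (S : Set A) : Prop :=
  ∀ u v : V, Relation.ReflTransGen
    (fun x y => ∃ a ∈ S, (tl a = x ∧ hd a = y) ∨ (tl a = y ∧ hd a = x)) u v

/-- `D - F` is strongly connected for every arc set `F` with at most `k - 1` arcs. -/
def ArcConnected {V A : Type} (tl hd : A → V) (k : ℕ) : Prop :=
  ∀ F : Finset A, F.card ≤ k - 1 → StronglyConnected tl hd {a | a ∉ F}

/-- Every finite loopless `k`-arc-connected digraph (parallel arcs allowed) has a partition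
of its arcs into a strongly connected and a weakly connected spanning sub-digraph. -/
def Splits (k : ℕ) : Prop :=
  ∀ (V A : Type) [Finite V] [Finite A] (tl hd : A → V), (∀ a, tl a ≠ hd a) →
    ArcConnected tl hd k →
      ∃ A₁ A₂ : Set A, A₁ ∪ A₂ = Set.univ ∧ A₁ ∩ A₂ = ∅ ∧
        StronglyConnected tl hd A₁ ∧ WeaklyConnected tl hd A₂

lemma weak_symm {V A : Type} {tl hd : A → V} {S : Set A} {u v : V}
    (h : Relation.ReflTransGen
      (fun x y => ∃ a ∈ S, (tl a = x ∧ hd a = y) ∨ (tl a = y ∧ hd a = x)) u v) :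
    Relation.ReflTransGen
      (fun x y => ∃ a ∈ S, (tl a = x ∧ hd a = y) ∨ (tl a = y ∧ hd a = x)) v u := by
  induction h with
  | refl => exact Relation.ReflTransGen.refl
  | tail _ h2 ih =>
    obtain ⟨a, ha, h3⟩ := h2
    exact Relation.ReflTransGen.head ⟨a, ha, h3.symm⟩ ih

theorem splits_five : Splits 5 := by
  intro V A _ _ tl hd _ hk
  classical
  have := Fintype.ofFinite V
  have := Fintype.ofFinite A
  obtain ⟨F, h1, h2⟩ := split (tl := tl) (hd := hd) (fun F hF u v =>
    rtg_mono (fun x y ⟨a, ha, h⟩ => ⟨a, Finset.mem_compl.2 ha, h⟩) (hk F (by omega) u v))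
  refine ⟨{a | a ∉ F}, {a | a ∈ F}, ?_, ?_, ?_, ?_⟩
  · ext a; by_cases h : a ∈ F <;> simp [h]
  · ext a; simp
  · intro u v
    exact rtg_mono (fun x y ⟨a, ha, h⟩ => ⟨a, Finset.mem_compl.1 ha, h⟩) (h1 u v)
  · intro u v
    have h := h2 u v
    change Relation.EqvGen _ u v at h
    induction h with
    | rel x y hxy =>
      obtain ⟨a, ha, h3⟩ := hxy
      exact Relation.ReflTransGen.single ⟨a, ha, Or.inl h3⟩
    | refl x => exact Relation.ReflTransGen.refl
    | symm x y _ ih => exact weak_symm ih
    | trans x y z _ _ ih1 ih2 => exact ih1.trans ih2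

theorem result : Splits 5 ∧ ∃ k : ℕ, 1 ≤ k ∧ Splits k :=
  ⟨splits_five, 5, by norm_num, splits_five⟩

end Pool.Agent.Results.MP_ce98c0_co.FiveArcSplit
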